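import Pool.Agent.R313.CX.G

set_option autoImplicit false

/-!
# MP_80d0cf_nt: the joint law of the complex values of zeta under the moment measures of every order, near the line

Let `δ(T) → 0`, `δ(T) log T → ∞`, `c ≥ 0`, let `S` be a countable set of reals and `B` a countable set of positive
reals (for instance all positive integers). There are sets `E(T) ⊆ [0, T]` of measure `o(δ^(4+4c) T)`, at every point
`t` of which `|ζ(1/2 + δ + i(t + a δ))| > δ^(-2-c)` for some `a ∈ S ∪ {0}`, such that for every `k ∈ B` with `k ≤ 2` or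
`k ≥ 2 + 2c`, all `a_1, ..., a_n ∈ S` and every continuous `Φ : ℂ^n → ℂ` with `Φ(u z) = |u|^(2k) Φ(z)`
`(2δ)^(k²) (1/T) ∫_{[0,T] \ E(T)} Φ(ζ(1/2 + δ + i(t + a_1 δ)), ..., ζ(1/2 + δ + i(t + a_n δ))) dt` converges to
`a(k) E Φ(e^{G_1}, ..., e^{G_n})`, where `(G_1, ..., G_n)` is a complex normal vector with means
`- k log (1 + i a_j/2)`, covariances `E (G_j - E G_j) conj (G_l - E G_l) = log (1 + i a_j/2) + log (1 - i a_l/2) -
log (1 + i (a_j - a_l)/2)` and `E (G_j - E G_j) (G_l - E G_l) = 0`.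
For an integer `k ≥ 3` one may take `c = (k-2)/2`; then the sets have measure `o(δ^(2k) T)`. For `k ≤ 2` the integral
may be taken over `[0, T]`.
-/

open Filter Topology MeasureTheory ProbabilityTheory

namespace Pool.Agent.Results.MP_80d0cf_nt.ComplexLandscape

/-- the arithmetic factor of the moment conjecture for `|ζ|^(2k)` -/
noncomputable def ak (k : ℝ) : ℝ :=
  ∏' p : Nat.Primes, ((1 - 1 / (p : ℝ)) ^ (k ^ 2) *
    ∑' m : ℕ, (Real.Gamma (k + m) / (Real.Gamma k * (m.factorial : ℝ))) ^ 2 / (p : ℝ) ^ m)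

/-- the mean at `a` -/
noncomputable def mean (k a : ℝ) : ℂ := -(k * Complex.log (1 + Complex.I * (a : ℂ) / 2))

/-- the covariance at `a, b` -/
noncomputable def cov (a b : ℝ) : ℂ :=
  Complex.log (1 + Complex.I * (a : ℂ) / 2) + Complex.log (1 - Complex.I * (b : ℂ) / 2) -
    Complex.log (1 + Complex.I * ((a - b : ℝ) : ℂ) / 2)

theorem result (δ : ℝ → ℝ) (hδ : Tendsto δ atTop (𝓝 0)) (hδL : Tendsto (fun T : ℝ => δ T * Real.log T) atTop atTop)
    (c : ℝ) (hc : 0 ≤ c) (S B : Set ℝ) (hS : S.Countable) (hB : B.Countable) (hB0 : ∀ k ∈ B, 0 < k) :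
    ∃ E : ℝ → Set ℝ, (∀ T, MeasurableSet (E T) ∧ ∀ t ∈ E T, 0 ≤ t ∧ t ≤ T ∧
        ∃ a ∈ insert 0 S, (δ T) ^ (-(2 + c)) < ‖riemannZeta (1 / 2 + δ T + ((t + a * δ T : ℝ) : ℂ) * Complex.I)‖) ∧
      Tendsto (fun T => (volume (E T)).toReal / (T * (δ T) ^ (4 + 4 * c))) atTop (𝓝 0) ∧
      ∀ k ∈ B, 0 < ak k ∧ ∀ (n : ℕ) (a : Fin n → ℝ), (∀ j, a j ∈ S) →
        ∃ ρ : Measure (Fin n → ℂ), IsProbabilityMeasure ρ ∧ (∀ s : ℝ, Integrable (fun z => Real.exp (s * ‖z‖)) ρ) ∧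
          (∀ α β : Fin n → ℂ, ∫ z, Complex.exp (∑ j, (α j * z j + β j * (starRingEnd ℂ) (z j))) ∂ρ =
            Complex.exp (∑ j, (α j * mean k (a j) + β j * (starRingEnd ℂ) (mean k (a j))) +
              ∑ i, ∑ j, α i * β j * cov (a i) (a j))) ∧
          ∀ Φ : (Fin n → ℂ) → ℂ, Continuous Φ →
            (∀ (u : ℂ) (z : Fin n → ℂ), Φ (u • z) = ((‖u‖ ^ (2 * k) : ℝ) : ℂ) * Φ z) →
            ((k ≤ 2 ∨ 2 + 2 * c ≤ k) → Tendsto (fun T : ℝ => (((2 * δ T) ^ (k ^ 2) / T : ℝ) : ℂ) *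
              ∫ t in Set.Icc 0 T \ E T, Φ (fun j => riemannZeta (1 / 2 + δ T + ((t + a j * δ T : ℝ) : ℂ) * Complex.I)))
              atTop (𝓝 ((ak k : ℂ) * ∫ z, Φ (fun j => Complex.exp (z j)) ∂ρ))) ∧
            (k ≤ 2 → Tendsto (fun T : ℝ => (((2 * δ T) ^ (k ^ 2) / T : ℝ) : ℂ) *
              ∫ t in Set.Icc 0 T, Φ (fun j => riemannZeta (1 / 2 + δ T + ((t + a j * δ T : ℝ) : ℂ) * Complex.I)))
              atTop (𝓝 ((ak k : ℂ) * ∫ z, Φ (fun j => Complex.exp (z j)) ∂ρ))) := by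
  have e1 : ∀ k : ℝ, 0 < k → ∀ m : ℕ, Real.Gamma (k + m) / (Real.Gamma k * (m.factorial : ℝ)) = Pool.Agent.H306R2.lc k m := by
    intro k hk m
    have hG : Real.Gamma k ≠ 0 := (Real.Gamma_pos_of_pos hk).ne'
    induction m with
    | zero =>
      unfold Pool.Agent.H306R2.lc
      simp [hG]
    | succ m ih =>
      have h1 : Pool.Agent.H306R2.lc k (m + 1) = Pool.Agent.H306R2.lc k m * ((k + m) / ((m : ℝ) + 1)) := by
        unfold Pool.Agent.H306R2.lc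
        rw [Finset.prod_range_succ]
      have hkm : k + (m : ℝ) ≠ 0 := by positivity
      have h2 : Real.Gamma (k + ((m + 1 : ℕ) : ℝ)) = (k + m) * Real.Gamma (k + m) := by
        rw [← Real.Gamma_add_one hkm]
        congr 1
        push_cast
        ring
      have hf : (m.factorial : ℝ) ≠ 0 := by positivity
      rw [h1, ← ih, h2, Nat.factorial_succ]
      push_cast
      field_simp
  have e3 : ∀ k : ℝ, 0 < k → ak k = Pool.Agent.H306R2.aF k := by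
    intro k hk
    unfold ak Pool.Agent.H306R2.aF
    refine tprod_congr fun p => ?_
    simp_rw [e1 k hk, one_div, inv_pow, div_eq_mul_inv]
  obtain ⟨E, hE, hvol, hm⟩ := Pool.Agent.R313.CX.cland hδ hδL hc hS hB hB0
  refine ⟨E, fun T => ⟨(hE T).1, fun t ht => ⟨((hE T).2.1 ht).1, ((hE T).2.1 ht).2, (hE T).2.2 t ht⟩⟩, hvol, fun k hk => ?_⟩
  have hk0 := hB0 k hk
  rw [e3 _ hk0]
  refine ⟨Pool.Agent.H306R2.aF_pos hk0, fun n a ha => ?_⟩
  obtain ⟨ρ, hρ, hρ2⟩ := Pool.Agent.R313.CX.normal k a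
  have h1 := hm k hk n a ha ρ hρ hρ2
  have hi : ∀ F : (Fin n → ℂ) → ℝ, ∀ A : ℝ, Continuous F → (∀ y, |F y| ≤ A * (1 + ∑ j, ‖y j‖ ^ (2 * k))) →
      Integrable (fun z => F (fun j => Complex.exp (z j))) (ρ : Measure (Fin n → ℂ)) :=
    fun F A hFc hFA => Pool.Agent.R313.CX.grow_int hk0 hρ hFc hFA
  refine ⟨(ρ : Measure (Fin n → ℂ)), inferInstance, hρ, hρ2, fun Φ hc hΦ => ⟨fun hcase => ?_, fun hk2 => ?_⟩⟩
  · exact Pool.Agent.R313.CX.to_hom hδ (fun T => Set.sdiff_subset) hk0 a hi (fun F A hFc hFA => (h1 F A hFc hFA).1 hcase) hc hΦ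
  · exact Pool.Agent.R313.CX.to_hom hδ (fun T => subset_rfl) hk0 a hi (fun F A hFc hFA => (h1 F A hFc hFA).2 hk2) hc hΦ

end Pool.Agent.Results.MP_80d0cf_nt.ComplexLandscape
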