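import Pool.Agent.R311.SE.V5

set_option autoImplicit false

/-!
Many extreme values of the zeta function with exactly prescribed argument: in every interval
`[T, T + H]`, `T ^ ε ≤ H ≤ T`, and on every ray `u (0, ∞)`, the curve `t ↦ ζ(1/2 + it)` meets the
ray at least `H T^(-ε)` times at distance at least `exp (c √(log T / log log T))` from `0`; hence
lower bounds, uniform in the real order `q ≥ 0`, for the `q`-th discrete moments over the points of
the ray.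
-/

namespace Pool.Agent.Results.MP_80d0cf_nt.ExtremesOnRays

open Filter

theorem result (ε : ℝ) (hε : 0 < ε) :
    ∃ c : ℝ, 0 < c ∧ ∀ᶠ T : ℝ in atTop, ∀ H : ℝ, T ^ ε ≤ H → H ≤ T → ∀ u : ℂ, ‖u‖ = 1 →
      {t : ℝ | T ≤ t ∧ t ≤ T + H ∧
        ∃ r : ℝ, 0 < r ∧ riemannZeta (1 / 2 + (t : ℂ) * Complex.I) = r * u}.Finite ∧
      H * T ^ (-ε) ≤ ({t : ℝ | T ≤ t ∧ t ≤ T + H ∧
        ∃ r : ℝ, Real.exp (c * Real.sqrt (Real.log T / Real.log (Real.log T))) ≤ r ∧
          riemannZeta (1 / 2 + (t : ℂ) * Complex.I) = r * u}.ncard : ℝ) ∧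
      ∀ q : ℝ, 0 ≤ q →
        H * T ^ (-ε) * Real.exp (c * q * Real.sqrt (Real.log T / Real.log (Real.log T))) ≤
          ∑ᶠ t ∈ {t : ℝ | T ≤ t ∧ t ≤ T + H ∧
              ∃ r : ℝ, 0 < r ∧ riemannZeta (1 / 2 + (t : ℂ) * Complex.I) = r * u},
            ‖riemannZeta (1 / 2 + (t : ℂ) * Complex.I)‖ ^ q :=
  Pool.Agent.R311.SE.main_ext ε hε

end Pool.Agent.Results.MP_80d0cf_nt.ExtremesOnRays
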