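import Pool.Agent.R311.SE.X9

set_option autoImplicit false

/-!
# High moments and extreme values of zeta in every direction, in short intervals
-/

namespace Pool.Agent.Results.MP_80d0cf_nt.HighMomentsInSectors

open MeasureTheory Filter

/-- The `t` in `[T, T + H]` for which `ζ(1/2 + it)` lies in the open sector around the ray of direction `u`
formed by the `w` with `Re (conj u * w) > κ |w|`. -/
noncomputable def sector (u : ℂ) (κ T H : ℝ) : Set ℝ :=
  {t : ℝ | t ∈ Set.Icc T (T + H) ∧
    κ * ‖riemannZeta (1 / 2 + t * Complex.I)‖ < ((starRingEnd ℂ) u * riemannZeta (1 / 2 + t * Complex.I)).re}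

/-- Let `ε > 0` and `κ < 1`.  There is `c > 0` such that for all large `T`, all `H` with `T^ε ≤ H ≤ T` and all
directions `u`: zeta takes in `[T, T + H]` a value in the sector around `u` of modulus at least
`exp (c √(log T / log log T))`, and for every real `q ≥ 1` the `q`-th moment of zeta over the part of
`[T, T + H]` where its values are in this sector is at least `H T^(-ε) exp (c q √(log T / log log T))`. -/
theorem result (ε κ : ℝ) (hε : 0 < ε) (hκ : κ < 1) :
    ∃ c : ℝ, 0 < c ∧ ∀ᶠ T : ℝ in atTop, ∀ H : ℝ, T ^ ε ≤ H → H ≤ T → ∀ u : ℂ, ‖u‖ = 1 →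
      (∃ t ∈ sector u κ T H, Real.exp (c * Real.sqrt (Real.log T / Real.log (Real.log T))) ≤
        ‖riemannZeta (1 / 2 + t * Complex.I)‖) ∧
      ∀ q : ℝ, 1 ≤ q →
        H * T ^ (-ε) * Real.exp (c * q * Real.sqrt (Real.log T / Real.log (Real.log T))) ≤
          ∫ t in sector u κ T H, ‖riemannZeta (1 / 2 + t * Complex.I)‖ ^ q :=
  Pool.Agent.R311.SE.main_res ε κ hε hκ

end Pool.Agent.Results.MP_80d0cf_nt.HighMomentsInSectors
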