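import Pool.Agent.R461.HM.Low

set_option autoImplicit false

/-!
# MP_80d0cf_nt: lower bounds of the conjectured order for all moments along measures and sequences of heights

For every integer `k ≥ 1` the mean of `|ζ(1/2 + i(t + u))|^(2k)`, with `u` near `0` at the scale `1 / log T` (weight
`log T / (1 + |u| log T)^N`) and with the heights `t` distributed by any probability measure `ν` on `[T, 2T]` (singular or
discrete) for which the integrals of `(m/n)^(it)`, `m ≠ n`, `m n ≤ T^(2θ)`, are at most `T^(-θ') (1 + 1 / |log(m/n)|)`,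
`θ' > θ > 0` arbitrarily small, is at least `c (log T)^(k²)`. Cases: finite sequences of heights, and the heights `T x` with
`x` distributed by any measure on `[1, 2]` whose Fourier transform decays like some power, however small.
-/

namespace Pool.Agent.Results.MP_80d0cf_nt.LowerBoundsAlongMeasures

open Complex MeasureTheory Filter Topology Set
open scoped ENNReal

noncomputable section

/-- the weighted mean of `|ζ(1/2 + i(t + u))|^(2k)` over `u` at the scale `1 / log T` -/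
def local2k (k N : ℕ) (T t : ℝ) : ℝ≥0∞ :=
  ∫⁻ u : ℝ, ENNReal.ofReal (‖riemannZeta (1 / 2 + I * (t + u))‖ ^ (2 * k) * (Real.log T / (1 + Real.log T * |u|) ^ N))

/-- probability measures of heights in `[T, 2T]` for which the characters with `m n ≤ Y` have small integrals -/
structure Heights (T Y δ : ℝ) (ν : Measure ℝ) : Prop where
  prob : IsProbabilityMeasure ν
  supp : ∀ᵐ t ∂ν, t ∈ Icc T (2 * T)
  small : ∀ m n : ℕ, 1 ≤ m → 1 ≤ n → m ≠ n → (m : ℝ) * n ≤ Y →
    ‖∫ t : ℝ, exp (I * (t * Real.log (m / n))) ∂ν‖ ≤ δ * (1 + 1 / |Real.log (m / n)|)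

/-- the probability measures `μ` on `[1, 2]` with `|∫ e^{iux} dμ(x)| ≤ K |u|^(-s)` for `|u| ≥ 1` -/
def Decay (s K : ℝ) (μ : Measure ℝ) : Prop :=
  IsProbabilityMeasure μ ∧ (∀ᵐ x ∂μ, x ∈ Icc (1:ℝ) 2) ∧
    ∀ u : ℝ, 1 ≤ |u| → ‖∫ x : ℝ, exp (I * (u * x)) ∂μ‖ ≤ K * |u| ^ (-s)

/-- the finite sequences `t 0, …, t (J-1)` of heights in `[T, 2T]` with small character sums -/
def Sequence (T Y δ : ℝ) (J : ℕ) (t : ℕ → ℝ) : Prop :=
  (∀ j < J, t j ∈ Icc T (2 * T)) ∧ ∀ m n : ℕ, 1 ≤ m → 1 ≤ n → m ≠ n → (m : ℝ) * n ≤ Y →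
    ‖∑ j ∈ Finset.range J, exp (I * (t j * Real.log (m / n)))‖ ≤ J * (δ * (1 + 1 / |Real.log (m / n)|))

lemma local_eq (k N : ℕ) (T t : ℝ) : local2k k N T t =
    ∫⁻ u, ENNReal.ofReal (R461.HM.zz k (t + u) * R461.HM.wt N (Real.log T) u) := by
  unfold local2k R461.HM.zz R461.HM.wt
  congr 1; funext u
  push_cast
  rfl

lemma local_meas (k N : ℕ) {T : ℝ} (hL : 0 < Real.log T) : Measurable (local2k k N T) := by
  have h : (local2k k N T) = fun t => ∫⁻ u, ENNReal.ofReal (R461.HM.zz k (t + u) * R461.HM.wt N (Real.log T) u) :=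
    funext (local_eq k N T)
  rw [h]
  have hjoint : Continuous fun p : ℝ × ℝ => R461.HM.zz k (p.1 + p.2) * R461.HM.wt N (Real.log T) p.2 :=
    ((R461.HM.zz_cont k).comp (by fun_prop : Continuous fun p : ℝ × ℝ => p.1 + p.2)).mul
      ((R461.HM.wt_cont N hL).comp continuous_snd)
  exact hjoint.measurable.ennreal_ofReal.lintegral_prod_right'

/-- the uniform distribution on a finite sequence -/
def unif (J : ℕ) (t : ℕ → ℝ) : Measure ℝ := ((J : ℝ≥0∞)⁻¹) • ∑ j ∈ Finset.range J, Measure.dirac (t j)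

lemma unif_heights {T Y δ : ℝ} {J : ℕ} (hJ : 1 ≤ J) {t : ℕ → ℝ} (h : Sequence T Y δ J t) : Heights T Y δ (unif J t) := by
  have hJ0 : (J : ℝ≥0∞) ≠ 0 := by exact_mod_cast (by omega : J ≠ 0)
  have hJr : (0:ℝ) < J := by exact_mod_cast hJ
  refine ⟨⟨?_⟩, ?_, fun m n hm hn hmn hY => ?_⟩
  · unfold unif
    rw [Measure.smul_apply, Measure.finsetSum_apply]
    simp only [measure_univ, Finset.sum_const, Finset.card_range, nsmul_eq_mul, mul_one, smul_eq_mul]
    exact ENNReal.inv_mul_cancel hJ0 (by simp)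
  · unfold unif
    refine Measure.ae_smul_measure ?_ _
    rw [ae_iff, Measure.finsetSum_apply]
    refine Finset.sum_eq_zero fun j hj => ?_
    rw [show {a : ℝ | a ∉ Icc T (2 * T)} = (Icc T (2 * T))ᶜ from rfl, Measure.dirac_apply' _ (measurableSet_Icc.compl)]
    simp only [indicator_apply_eq_zero]
    intro hmem
    exact absurd (h.1 j (Finset.mem_range.1 hj)) hmem
  · have h1 := h.2 m n hm hn hmn hY
    have e1 : (∫ x : ℝ, exp (I * (x * Real.log (m / n))) ∂(unif J t)) =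
        (J : ℂ)⁻¹ * ∑ j ∈ Finset.range J, exp (I * (t j * Real.log (m / n))) := by
      unfold unif
      rw [integral_smul_measure, integral_finsetSum_measure]
      · simp only [integral_dirac]
        rw [ENNReal.toReal_inv, ENNReal.toReal_natCast, Complex.real_smul]
        push_cast
        rfl
      · intro j _
        exact integrable_dirac (by simp)
    rw [e1, norm_mul, norm_inv, Complex.norm_natCast, inv_mul_le_iff₀ hJr]
    exact h1

lemma lintegral_unif (k N : ℕ) {T : ℝ} (hL : 0 < Real.log T) (J : ℕ) (t : ℕ → ℝ) :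
    ∫⁻ x, local2k k N T x ∂(unif J t) = (J : ℝ≥0∞)⁻¹ * ∑ j ∈ Finset.range J, local2k k N T (t j) := by
  unfold unif
  rw [lintegral_smul_measure, lintegral_finsetSum_measure]
  simp only [lintegral_dirac' _ (local_meas k N hL), smul_eq_mul]

/-- Let `k ≥ 1` and `N` be integers. (1) For `0 < θ < θ'` there are `c > 0` and `T₀` such that for all `T ≥ T₀` and all
probability measures `ν` of heights with `δ = T^(-θ')`, `Y = T^(2θ)` the `ν`-mean of the local moment is at least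
`c (log T)^(k²)`. (2) The same for the mean over the terms of any finite sequence of heights. (3) For all `s > 0`, `K` there
are `c > 0` and `T₀` such that the same lower bound holds for the heights `T x`, for all `T ≥ T₀` and all distributions `μ`
of `x` in `[1, 2]` with Fourier transform at most `K |u|^(-s)` for `|u| ≥ 1`. -/
theorem result (k : ℕ) (hk : 1 ≤ k) (N : ℕ) :
    (∀ θ θ' : ℝ, 0 < θ → θ < θ' → ∃ c T₀ : ℝ, 0 < c ∧ ∀ T : ℝ, T₀ ≤ T → ∀ ν : Measure ℝ,
      Heights T (T ^ (2 * θ)) (T ^ (-θ')) ν →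
      ENNReal.ofReal (c * Real.log T ^ (k ^ 2)) ≤ ∫⁻ t, local2k k N T t ∂ν) ∧
    (∀ θ θ' : ℝ, 0 < θ → θ < θ' → ∃ c T₀ : ℝ, 0 < c ∧ ∀ T : ℝ, T₀ ≤ T → ∀ (J : ℕ) (t : ℕ → ℝ), 1 ≤ J →
      Sequence T (T ^ (2 * θ)) (T ^ (-θ')) J t →
      ENNReal.ofReal (c * Real.log T ^ (k ^ 2)) ≤ (J : ℝ≥0∞)⁻¹ * ∑ j ∈ Finset.range J, local2k k N T (t j)) ∧
    (∀ s K : ℝ, 0 < s → ∃ c T₀ : ℝ, 0 < c ∧ ∀ T : ℝ, T₀ ≤ T → ∀ μ : Measure ℝ, Decay s K μ →
      ENNReal.ofReal (c * Real.log T ^ (k ^ 2)) ≤ ∫⁻ x, local2k k N T (T * x) ∂μ) := by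
  have main : ∀ θ θ' : ℝ, 0 < θ → θ < θ' → ∃ c T₀ : ℝ, 0 < c ∧ Real.exp 1 ≤ T₀ ∧ ∀ T : ℝ, T₀ ≤ T → ∀ ν : Measure ℝ,
      Heights T (T ^ (2 * θ)) (T ^ (-θ')) ν →
      ENNReal.ofReal (c * Real.log T ^ (k ^ 2)) ≤ ∫⁻ t, local2k k N T t ∂ν := by
    intro θ θ' hθ hθ'
    obtain ⟨c, T₀, hc, hT₀, h⟩ := R461.HM.lower hk N hθ hθ'
    refine ⟨c, T₀, hc, hT₀, fun T hT ν hν => ?_⟩
    simp only [local_eq]
    exact h T hT ν ⟨hν.prob, hν.supp, hν.small⟩
  refine ⟨fun θ θ' hθ hθ' => ?_, fun θ θ' hθ hθ' => ?_, fun s K hs => ?_⟩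
  · obtain ⟨c, T₀, hc, -, h⟩ := main θ θ' hθ hθ'
    exact ⟨c, T₀, hc, h⟩
  · obtain ⟨c, T₀, hc, hT₀, h⟩ := main θ θ' hθ hθ'
    refine ⟨c, T₀, hc, fun T hT J t hJ ht => ?_⟩
    have hTe := hT₀.trans hT
    have hT0 : 0 < T := (Real.exp_pos 1).trans_le hTe
    have hL : 1 ≤ Real.log T := by rwa [Real.le_log_iff_exp_le hT0]
    have h1 := h T hT _ (unif_heights hJ ht)
    rwa [lintegral_unif k N (by linarith)] at h1
  · set s' := min s 1 with hs'
    have hs'0 : 0 < s' := lt_min hs one_pos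
    obtain ⟨c, T₀, hc, hT₀, h⟩ := main (s' / 3) (s' / 2) (by positivity) (by linarith)
    obtain ⟨T₂, hT₂, h'⟩ := R461.HM.dilated (s := s') (K := max K 0) hs'0 (min_le_right _ _) (le_max_right _ _)
      (θ' := s' / 2) (by linarith)
    refine ⟨c, max T₀ T₂, hc, fun T hT μ hμ => ?_⟩
    have hTe := hT₀.trans ((le_max_left _ _).trans hT)
    have hT0 : 0 < T := (Real.exp_pos 1).trans_le hTe
    have hL : 1 ≤ Real.log T := by rwa [Real.le_log_iff_exp_le hT0]
    have h1 := h' T ((le_max_right _ _).trans hT) μ hμ.1 hμ.2.1 (fun u hu => (hμ.2.2 u hu).trans (by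
      have e1 : |u| ^ (-s) ≤ |u| ^ (-s') := Real.rpow_le_rpow_of_exponent_le hu (by linarith [min_le_left s 1])
      have e2 : 0 ≤ |u| ^ (-s) := by positivity
      have e3 : K ≤ max K 0 := le_max_left _ _
      have e4 : 0 ≤ max K 0 := le_max_right _ _
      calc K * |u| ^ (-s) ≤ max K 0 * |u| ^ (-s) := mul_le_mul_of_nonneg_right e3 e2
        _ ≤ _ := mul_le_mul_of_nonneg_left e1 e4)) (T ^ (2 * (s' / 3))) (by positivity)
    have h2 := h T ((le_max_left _ _).trans hT) _ ⟨h1.prob, h1.supp, h1.small⟩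
    rwa [lintegral_map (local_meas k N (by linarith)) (by fun_prop)] at h2

end

end Pool.Agent.Results.MP_80d0cf_nt.LowerBoundsAlongMeasures
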